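import Pool.Agent.U37.LC.Stm

set_option autoImplicit false

open MeasureTheory Filter Topology Complex

namespace Pool.Agent.U37.LC

theorem poisson_lower (V : Set ℝ) (x ε : ℝ) (hε : 0 < ε) (hV : Set.Icc (x - ε) (x + ε) ⊆ V) :
    1 ≤ ∫⁻ t in V, ENNReal.ofReal (ε / ((x - t) ^ 2 + ε ^ 2)) := by
  calc (1 : ENNReal) = ENNReal.ofReal (1 / (2 * ε)) * ENNReal.ofReal (2 * ε) := by
        rw [← ENNReal.ofReal_mul (by positivity)]
        rw [one_div, inv_mul_cancel₀ (by positivity), ENNReal.ofReal_one]
    _ = ∫⁻ _ in Set.Icc (x - ε) (x + ε), ENNReal.ofReal (1 / (2 * ε)) := by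
        rw [setLIntegral_const, Real.volume_Icc]
        congr 2
        ring
    _ ≤ ∫⁻ t in Set.Icc (x - ε) (x + ε), ENNReal.ofReal (ε / ((x - t) ^ 2 + ε ^ 2)) := by
        refine setLIntegral_mono' measurableSet_Icc fun t ht => ?_
        refine ENNReal.ofReal_le_ofReal ?_
        have h1 : (x - t) ^ 2 ≤ ε ^ 2 := by
          refine sq_le_sq' ?_ ?_
          · have := ht.2
            linarith
          · have := ht.1
            linarith
        rw [div_le_div_iff₀ (by positivity) (by positivity)]
        nlinarith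
    _ ≤ ∫⁻ t in V, ENNReal.ofReal (ε / ((x - t) ^ 2 + ε ^ 2)) :=
        lintegral_mono_set hV

theorem jobAbsCont : JobAbsCont := by
  intro μ hμ h
  have key : ∀ E : Set ℝ, IsCompact E → volume E = 0 → μ E = 0 := by
    intro E hE hE0
    by_contra hne
    have ha : 0 < (μ E).toReal := ENNReal.toReal_pos hne (measure_ne_top μ E)
    obtain ⟨V, hVo, hEV, ε₀, hε₀, hb⟩ := h E hE hE0 ((μ E).toReal / 2) (by positivity)
    obtain ⟨r, hr, hrV⟩ := hE.exists_thickening_subset_open hVo hEV
    set ε : ℝ := min (ε₀ / 2) (r / 2) with hε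
    have hε0 : 0 < ε := lt_min (by positivity) (by positivity)
    have hε1 : ε < ε₀ := (min_le_left _ _).trans_lt (by linarith)
    have hε2 : ε < r := (min_le_right _ _).trans_lt (by linarith)
    have h1 := hb ε hε0 hε1
    have hmeas : Measurable (Function.uncurry fun (t x : ℝ) =>
        ENNReal.ofReal (ε / ((x - t) ^ 2 + ε ^ 2))) := by
      unfold Function.uncurry
      fun_prop
    rw [lintegral_lintegral_swap hmeas.aemeasurable] at h1
    have h2 : μ E ≤ ∫⁻ x, (∫⁻ t in V, ENNReal.ofReal (ε / ((x - t) ^ 2 + ε ^ 2))) ∂μ := by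
      calc μ E = ∫⁻ _ in E, 1 ∂μ := by simp
        _ ≤ ∫⁻ x in E, (∫⁻ t in V, ENNReal.ofReal (ε / ((x - t) ^ 2 + ε ^ 2))) ∂μ := by
            refine setLIntegral_mono' hE.measurableSet fun x hx => ?_
            refine poisson_lower V x ε hε0 fun t ht => hrV ?_
            rw [Metric.mem_thickening_iff]
            refine ⟨x, hx, ?_⟩
            rw [Real.dist_eq, abs_lt]
            constructor
            · have := ht.1
              linarith
            · have := ht.2
              linarith
        _ ≤ _ := setLIntegral_le_lintegral _ _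
    have h3 := h2.trans h1
    rw [ENNReal.le_ofReal_iff_toReal_le (measure_ne_top μ E) (by positivity)] at h3
    linarith
  refine Measure.AbsolutelyContinuous.mk fun s hs h0 => ?_
  by_contra hne
  obtain ⟨K, hKs, hK, hpos⟩ := hs.exists_lt_isCompact_of_ne_top (measure_ne_top μ s)
    (pos_iff_ne_zero.2 hne)
  have h1 : volume K = 0 := measure_mono_null hKs h0
  rw [key K hK h1] at hpos
  exact lt_irrefl _ hpos

end Pool.Agent.U37.LC
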