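import Pool.Agent.U37.LC.Stm

set_option autoImplicit false

open MeasureTheory Filter Topology Complex

namespace Pool.Agent.U37.LC

theorem jobBilip : JobBilip := by
  intro γ L l hγ h1 hinj hL hper
  have hc : Continuous γ := hγ.continuous
  -- `l` is nonzero
  have hl : l ≠ 0 := by
    intro h0
    have h2 := hper 0
    rw [h0, add_zero, zero_add] at h2
    exact hL.ne' (hinj h2)
  have hl' : 0 < ‖l‖ := norm_pos_iff.2 hl
  set g : ℝ → E2 := fun s => γ s - (s / L) • l with hg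
  have hgp : Function.Periodic g L := by
    intro s
    simp only [hg, hper]
    rw [add_div, div_self hL.ne', add_smul, one_smul]
    abel
  have hgc : Continuous g := by
    simp only [hg]
    fun_prop
  obtain ⟨M, hM⟩ : ∃ M : ℝ, ∀ s, ‖g s‖ ≤ M := by
    obtain ⟨M, hM⟩ := (isCompact_Icc (a := (0 : ℝ)) (b := L)).exists_bound_of_continuousOn
      hgc.continuousOn
    refine ⟨M, fun s => ?_⟩
    obtain ⟨y, hy, hy2⟩ := hgp.exists_mem_Ico₀ hL s
    rw [hy2]
    exact hM y ⟨hy.1, hy.2.le⟩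
  have hM0 : 0 ≤ M := (norm_nonneg _).trans (hM 0)
  have hdiff : ∀ s t, γ s - γ t = g s - g t + ((s - t) / L) • l := by
    intro s t
    simp only [hg, sub_div, sub_smul]
    abel
  -- local estimates
  have hloc : ∀ p : ℝ × ℝ, ∃ c : ℝ, 0 < c ∧ ∀ᶠ q : ℝ × ℝ in 𝓝 p,
      c * |q.1 - q.2| ≤ ‖γ q.1 - γ q.2‖ := by
    rintro ⟨s, t⟩
    by_cases hst : s = t
    · subst hst
      have hd : HasStrictDerivAt γ (deriv γ s) s :=
        hγ.contDiffAt.hasStrictDerivAt (by norm_num)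
      have h2 := hd.isLittleO
      rw [Asymptotics.isLittleO_iff] at h2
      refine ⟨1 / 2, by norm_num, ?_⟩
      filter_upwards [h2 (c := 1 / 2) (by norm_num)] with q hq
      have h3 : ‖(q.1 - q.2) • deriv γ s‖ = |q.1 - q.2| := by
        rw [norm_smul, h1 s, mul_one, Real.norm_eq_abs]
      have h4 : ‖γ q.1 - γ q.2 - (q.1 - q.2) • deriv γ s‖ ≤ 1 / 2 * |q.1 - q.2| := by
        simpa using hq
      have h5 : ‖(q.1 - q.2) • deriv γ s‖ ≤ ‖γ q.1 - γ q.2‖ +
          ‖γ q.1 - γ q.2 - (q.1 - q.2) • deriv γ s‖ := by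
        have := norm_sub_le (γ q.1 - γ q.2) (γ q.1 - γ q.2 - (q.1 - q.2) • deriv γ s)
        simpa using this
      rw [h3] at h5
      linarith
    · have h2 : 0 < ‖γ s - γ t‖ := norm_pos_iff.2 (sub_ne_zero.2 fun h => hst (hinj h))
      have h3 : 0 < |s - t| := abs_pos.2 (sub_ne_zero.2 hst)
      refine ⟨‖γ s - γ t‖ / (2 * |s - t|), by positivity, ?_⟩
      have h4 : Continuous fun q : ℝ × ℝ => ‖γ s - γ t‖ / (2 * |s - t|) * |q.1 - q.2| := by
        fun_prop
      have h5 : Continuous fun q : ℝ × ℝ => ‖γ q.1 - γ q.2‖ := by fun_prop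
      refine (h4.continuousAt.eventually_lt h5.continuousAt ?_).mono fun q hq => hq.le
      show ‖γ s - γ t‖ / (2 * |s - t|) * |s - t| < ‖γ s - γ t‖
      have h6 : ‖γ s - γ t‖ / (2 * |s - t|) * |s - t| = ‖γ s - γ t‖ / 2 := by
        field_simp
      rw [h6]
      linarith
  -- the compact set
  set R : ℝ := 4 * M * L / ‖l‖ with hR
  have hR0 : 0 ≤ R := by positivity
  have hK : IsCompact (Set.Icc (0 : ℝ) L ×ˢ Set.Icc (-R) (L + R)) :=
    isCompact_Icc.prod isCompact_Icc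
  obtain ⟨c, hc0, hcK⟩ : ∃ c : ℝ, 0 < c ∧ ∀ q ∈ Set.Icc (0 : ℝ) L ×ˢ Set.Icc (-R) (L + R),
      c * |q.1 - q.2| ≤ ‖γ q.1 - γ q.2‖ := by
    refine hK.induction_on (p := fun S => ∃ c : ℝ, 0 < c ∧ ∀ q ∈ S,
      c * |q.1 - q.2| ≤ ‖γ q.1 - γ q.2‖) ⟨1, one_pos, by simp⟩ ?_ ?_ ?_
    · rintro S T hST ⟨c, h2, h3⟩
      exact ⟨c, h2, fun q hq => h3 q (hST hq)⟩
    · rintro S T ⟨c, h2, h3⟩ ⟨d, h4, h5⟩
      refine ⟨min c d, lt_min h2 h4, fun q hq => ?_⟩
      rcases hq with hq | hq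
      · exact (mul_le_mul_of_nonneg_right (min_le_left _ _) (abs_nonneg _)).trans (h3 q hq)
      · exact (mul_le_mul_of_nonneg_right (min_le_right _ _) (abs_nonneg _)).trans (h5 q hq)
    · intro p _
      obtain ⟨c, h2, h3⟩ := hloc p
      exact ⟨{q | c * |q.1 - q.2| ≤ ‖γ q.1 - γ q.2‖}, mem_nhdsWithin_of_mem_nhds h3, c, h2,
        fun q hq => hq⟩
  refine ⟨min c (‖l‖ / (2 * L)), lt_min hc0 (by positivity), fun s t => ?_⟩
  rcases le_or_gt |s - t| R with hst | hst
  · refine (mul_le_mul_of_nonneg_right (min_le_left _ _) (abs_nonneg _)).trans ?_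
    set k : ℤ := ⌊s / L⌋ with hk
    have hk1 : (k : ℝ) * L ≤ s := by
      have := Int.floor_le (s / L)
      rwa [le_div_iff₀ hL] at this
    have hk2 : s < (k + 1 : ℝ) * L := by
      have := Int.lt_floor_add_one (s / L)
      rwa [div_lt_iff₀ hL] at this
    have e1 : g s = g (s - k * L) := (hgp.sub_int_mul_eq k).symm
    have e2 : g t = g (t - k * L) := (hgp.sub_int_mul_eq k).symm
    have e3 : γ s - γ t = γ (s - k * L) - γ (t - k * L) := by
      rw [hdiff, hdiff (s - k * L), e1, e2]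
      congr 3
      ring
    have e4 : |s - t| = |(s - k * L) - (t - k * L)| := by
      congr 1
      ring
    rw [e3, e4]
    refine hcK (s - k * L, t - k * L) ⟨⟨?_, ?_⟩, ⟨?_, ?_⟩⟩
    · show 0 ≤ s - k * L
      linarith
    · show s - k * L ≤ L
      linarith
    · show -R ≤ t - k * L
      have := (abs_le.1 hst).2
      linarith
    · show t - k * L ≤ L + R
      have := (abs_le.1 hst).1
      linarith
  · refine (mul_le_mul_of_nonneg_right (min_le_right _ _) (abs_nonneg _)).trans ?_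
    have h2 : ‖((s - t) / L) • l‖ ≤ ‖γ s - γ t‖ + ‖g s‖ + ‖g t‖ := by
      have e : ((s - t) / L) • l = (γ s - γ t) - g s + g t := by
        rw [hdiff]
        abel
      rw [e]
      exact (norm_add_le _ _).trans (add_le_add (norm_sub_le _ _) le_rfl)
    have h3 : ‖((s - t) / L) • l‖ = |s - t| / L * ‖l‖ := by
      rw [norm_smul, Real.norm_eq_abs, abs_div, abs_of_pos hL]
    have h4 : 2 * M ≤ ‖l‖ / (2 * L) * |s - t| := by
      have h5 : ‖l‖ / (2 * L) * R = 2 * M := by
        rw [hR]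
        field_simp
        ring
      rw [← h5]
      exact mul_le_mul_of_nonneg_left hst.le (by positivity)
    have h6 : |s - t| / L * ‖l‖ = 2 * (‖l‖ / (2 * L) * |s - t|) := by
      field_simp
    have h7 := hM s
    have h8 := hM t
    linarith

end Pool.Agent.U37.LC
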